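import Mathlib

/-!
# Second-order term of the worst-case maximum dicut ratio in acyclic digraphs

For `ν ≥ 2` let `c ν` be the infimum of `mac(D) / w(D)` over all acyclic arc-weighted digraphs `D`
whose longest directed path has `ν` vertices.  We determine the order of magnitude of
`c ν - 1/4`: it is `Θ(ν ^ (-2/3))`, so that `α_L = α_U = -2/3`.

* Lower bound for `c ν` (`mac_lower`, `c_lower`).  Put the vertices on levels `< ν` so that arcs go
  up.  Divide the levels into `2 t + 1` blocks of size `8 t ^ 2` and choose, independently, a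
  uniformly random subset of size `4 t ^ 2 + t - b` of the `b`-th block.  Each pair `i < j` of levels
  is cut (`i` chosen, `j` not chosen) with probability at least `1/4 + 1/(64 t ^ 2)`.
* Upper bound for `c ν` (`c_upper`).  By duality (`exists_weights`) it is enough to see that no
  random subset of `ν ≥ 5 t ^ 3` levels cuts every pair `i < j` with probability at least
  `1/4 + 1/(2 (t ^ 2 - 1))`.  The second moment of the number of chosen levels in windows of length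
  `t ^ 2` (`window`) leads to a discrete Riccati inequality for a doubly smoothed version of the
  one-point probabilities (`riccati_bound`), which can hold for at most `O(t ^ 3)` steps.
-/

open Finset

namespace Pool.Agent.Results.MP_0d4af9_co.DicutExponents

/-- A digraph on the vertex set `V` without loops, every arc `u → v` of which carries a
positive weight `w u v`. -/
structure WDigraph (V : Type) where
  /-- the arc relation -/
  Adj : V → V → Prop
  loopless : ∀ v, ¬ Adj v v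
  /-- the weight of the arc `u → v` (only relevant when `Adj u v`) -/
  w : V → V → ℝ
  w_pos : ∀ u v, Adj u v → 0 < w u v

namespace WDigraph

variable {V : Type} [Fintype V]

open Classical in
/-- The total weight `w(D)`. -/
noncomputable def total (D : WDigraph V) : ℝ :=
  ∑ u, ∑ v, if D.Adj u v then D.w u v else 0

open Classical in
/-- The weight of the dicut `(X, V ∖ X)`: the total weight of the arcs with tail in `X` and head
outside `X`. -/
noncomputable def dicut (D : WDigraph V) (X : Finset V) : ℝ :=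
  ∑ u, ∑ v, if u ∈ X ∧ v ∉ X ∧ D.Adj u v then D.w u v else 0

/-- The maximum weight of a dicut. -/
noncomputable def mac (D : WDigraph V) : ℝ := ⨆ X : Finset V, D.dicut X

/-- `D` has no directed cycle. -/
def Acyclic (D : WDigraph V) : Prop := ∀ v, ¬ Relation.TransGen D.Adj v v

/-- A directed path: a list of distinct vertices each of which has an arc to the next one. -/
def IsPath (D : WDigraph V) (l : List V) : Prop := l.Nodup ∧ l.IsChain D.Adj

/-- The longest directed paths of `D` have order (number of vertices) `k`. -/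
def LongestPathOrder (D : WDigraph V) (k : ℕ) : Prop :=
  (∃ l, D.IsPath l ∧ l.length = k) ∧ ∀ l, D.IsPath l → l.length ≤ k

end WDigraph

/-- `c ν = inf mac(D) / w(D)` over all finite acyclic arc-weighted digraphs `D` whose longest
directed path has order `ν`. -/
noncomputable def c (ν : ℕ) : ℝ :=
  sInf {r : ℝ | ∃ (n : ℕ) (D : WDigraph (Fin n)),
    D.Acyclic ∧ D.LongestPathOrder ν ∧ r = D.mac / D.total}

/-- `α_U = inf {α : c ν - 1/4 = O(ν ^ α)}`. -/
noncomputable def alphaU : ℝ :=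
  sInf {α : ℝ | (fun ν : ℕ => c ν - 1 / 4) =O[Filter.atTop] (fun ν : ℕ => (ν : ℝ) ^ α)}

/-- `α_L = sup {α : c ν - 1/4 = Ω(ν ^ α)}`. -/
noncomputable def alphaL : ℝ :=
  sSup {α : ℝ | (fun ν : ℕ => (ν : ℝ) ^ α) =O[Filter.atTop] (fun ν : ℕ => c ν - 1 / 4)}

/-! ### Random cuts: the lower bound -/

section perm

variable {m : ℕ}

lemma sum_perm_one (φ : Fin m → ℝ) (i : Fin m) :
    (m : ℝ) * ∑ σ : Equiv.Perm (Fin m), φ (σ i) =
      (Fintype.card (Equiv.Perm (Fin m)) : ℝ) * ∑ x, φ x := by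
  have h1 : ∀ j : Fin m, ∑ σ : Equiv.Perm (Fin m), φ (σ j) = ∑ σ : Equiv.Perm (Fin m), φ (σ i) := by
    intro j
    refine Fintype.sum_equiv (Equiv.mulRight (Equiv.swap i j)) _ _ fun σ => ?_
    simp
  calc (m : ℝ) * ∑ σ : Equiv.Perm (Fin m), φ (σ i)
      = ∑ j : Fin m, ∑ σ : Equiv.Perm (Fin m), φ (σ j) := by
        rw [Finset.sum_congr rfl fun j _ => h1 j]; simp
    _ = ∑ σ : Equiv.Perm (Fin m), ∑ j, φ (σ j) := Finset.sum_comm
    _ = ∑ σ : Equiv.Perm (Fin m), ∑ x, φ x := by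
        refine Finset.sum_congr rfl fun σ _ => ?_
        exact Equiv.sum_comp σ φ
    _ = _ := by simp

lemma sum_perm_two (ψ : Fin m → Fin m → ℝ) {i j : Fin m} (hij : i ≠ j) :
    ((m : ℝ) * (m - 1)) * ∑ σ : Equiv.Perm (Fin m), ψ (σ i) (σ j) =
      (Fintype.card (Equiv.Perm (Fin m)) : ℝ) * ∑ x, ∑ y, if x ≠ y then ψ x y else 0 := by
  have h1 : ∀ i' j' : Fin m, i' ≠ j' →
      ∑ σ : Equiv.Perm (Fin m), ψ (σ i') (σ j') = ∑ σ : Equiv.Perm (Fin m), ψ (σ i) (σ j) := by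
    intro i' j' hij'
    -- a permutation taking i to i' and j to j'
    obtain ⟨τ, h1, h2⟩ : ∃ τ : Equiv.Perm (Fin m), τ i = i' ∧ τ j = j' := by
      refine ⟨Equiv.swap (Equiv.swap i i' j) j' * Equiv.swap i i', ?_, ?_⟩
      · have h3 : i' ≠ Equiv.swap i i' j := by
          intro h
          have h4 : Equiv.swap i i' i = Equiv.swap i i' j := by rw [Equiv.swap_apply_left]; exact h
          exact hij ((Equiv.swap i i').injective h4)
        simp [Equiv.swap_apply_of_ne_of_ne h3 hij']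
      · simp
    refine Fintype.sum_equiv (Equiv.mulRight τ) _ _ fun σ => ?_
    simp [h1, h2]
  have hcard : ∑ i' : Fin m, ∑ j' : Fin m, (if i' ≠ j' then (1 : ℝ) else 0) = (m : ℝ) * (m - 1) := by
    have : ∀ i' : Fin m, ∑ j' : Fin m, (if i' ≠ j' then (1 : ℝ) else 0) = (m : ℝ) - 1 := by
      intro i'
      have h2 : ∑ j' : Fin m, ((if i' ≠ j' then (1 : ℝ) else 0) + (if i' = j' then (1 : ℝ) else 0)) = m := by
        have h3 : ∀ j' : Fin m, ((if i' ≠ j' then (1 : ℝ) else 0) + (if i' = j' then (1 : ℝ) else 0)) = 1 := by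
          intro j'; by_cases h : i' = j' <;> simp [h]
        rw [Finset.sum_congr rfl fun j' _ => h3 j']; simp
      rw [Finset.sum_add_distrib] at h2
      simp only [Finset.sum_ite_eq, Finset.mem_univ, if_true] at h2
      linarith
    rw [Finset.sum_congr rfl fun i' _ => this i']; simp; ring
  calc ((m : ℝ) * (m - 1)) * ∑ σ : Equiv.Perm (Fin m), ψ (σ i) (σ j)
      = ∑ i' : Fin m, ∑ j' : Fin m, if i' ≠ j' then ∑ σ : Equiv.Perm (Fin m), ψ (σ i') (σ j') else 0 := by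
        rw [← hcard, Finset.sum_mul]
        refine Finset.sum_congr rfl fun i' _ => ?_
        rw [Finset.sum_mul]
        refine Finset.sum_congr rfl fun j' _ => ?_
        by_cases h : i' ≠ j'
        · rw [if_pos h, if_pos h, one_mul, h1 i' j' h]
        · rw [if_neg h, if_neg h, zero_mul]
    _ = ∑ σ : Equiv.Perm (Fin m), ∑ i' : Fin m, ∑ j' : Fin m, if i' ≠ j' then ψ (σ i') (σ j') else 0 := by
        rw [Finset.sum_comm]
        have : ∀ i' : Fin m, ∑ j' : Fin m, (if i' ≠ j' then ∑ σ : Equiv.Perm (Fin m), ψ (σ i') (σ j') else 0) =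
          ∑ σ : Equiv.Perm (Fin m), ∑ j' : Fin m, if i' ≠ j' then ψ (σ i') (σ j') else 0 := by
          intro i'
          rw [Finset.sum_comm]
          refine Finset.sum_congr rfl fun j' _ => ?_
          by_cases h : i' ≠ j'
          · simp [h]
          · simp [h]
        rw [Finset.sum_comm, Finset.sum_congr rfl fun i' _ => this i', Finset.sum_comm]
    _ = ∑ σ : Equiv.Perm (Fin m), ∑ x, ∑ y, (if x ≠ y then ψ x y else 0) := by
        refine Finset.sum_congr rfl fun σ _ => ?_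
        rw [← Equiv.sum_comp σ (fun x => ∑ y, if x ≠ y then ψ x y else 0)]
        refine Finset.sum_congr rfl fun i' _ => ?_
        rw [← Equiv.sum_comp σ (fun y => if σ i' ≠ y then ψ (σ i') y else 0)]
        refine Finset.sum_congr rfl fun j' _ => ?_
        simp
    _ = _ := by simp

/-- the probability that a fixed point is chosen -/
lemma prob_one {a : ℕ} (ha : a ≤ m) (hm : 0 < m) (i : Fin m) :
    ∑ σ : Equiv.Perm (Fin m), (if (σ i : ℕ) < a then (1 : ℝ) else 0) =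
      (Fintype.card (Equiv.Perm (Fin m)) : ℝ) * (a / m) := by
  have h := sum_perm_one (fun x : Fin m => if (x : ℕ) < a then (1 : ℝ) else 0) i
  have h2 : ∑ x : Fin m, (if (x : ℕ) < a then (1 : ℝ) else 0) = a := by
    rw [Finset.sum_boole]
    have : (Finset.univ.filter fun x : Fin m => (x : ℕ) < a).card = a := by
      rw [Fin.card_filter_val_lt]
      omega
    rw [this]
  rw [h2] at h
  have hm' : (m : ℝ) ≠ 0 := by positivity
  field_simp
  linarith

lemma prob_one' {a : ℕ} (ha : a ≤ m) (hm : 0 < m) (i : Fin m) :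
    ∑ σ : Equiv.Perm (Fin m), (if ¬ (σ i : ℕ) < a then (1 : ℝ) else 0) =
      (Fintype.card (Equiv.Perm (Fin m)) : ℝ) * (1 - a / m) := by
  have h := prob_one ha hm i
  have h2 : ∑ σ : Equiv.Perm (Fin m), ((if (σ i : ℕ) < a then (1 : ℝ) else 0) +
      (if ¬ (σ i : ℕ) < a then (1 : ℝ) else 0)) = (Fintype.card (Equiv.Perm (Fin m)) : ℝ) := by
    have : ∀ σ : Equiv.Perm (Fin m), ((if (σ i : ℕ) < a then (1 : ℝ) else 0) +
      (if ¬ (σ i : ℕ) < a then (1 : ℝ) else 0)) = 1 := by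
      intro σ; by_cases h : (σ i : ℕ) < a <;> simp [h]
    rw [Finset.sum_congr rfl fun σ _ => this σ]; simp
  rw [Finset.sum_add_distrib, h] at h2
  linarith

/-- the probability that `i` is chosen and `j` is not -/
lemma prob_two {a : ℕ} (ha : a ≤ m) {i j : Fin m} (hij : i ≠ j) :
    ((m : ℝ) * (m - 1)) * ∑ σ : Equiv.Perm (Fin m),
      (if (σ i : ℕ) < a ∧ ¬ (σ j : ℕ) < a then (1 : ℝ) else 0) =
      (Fintype.card (Equiv.Perm (Fin m)) : ℝ) * (a * (m - a)) := by
  rw [sum_perm_two (fun x y : Fin m => if (x : ℕ) < a ∧ ¬ (y : ℕ) < a then (1 : ℝ) else 0) hij]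
  congr 1
  have h1 : ∀ x y : Fin m, (if x ≠ y then (if (x : ℕ) < a ∧ ¬ (y : ℕ) < a then (1 : ℝ) else 0) else 0) =
      (if (x : ℕ) < a then (1 : ℝ) else 0) * (1 - if (y : ℕ) < a then (1 : ℝ) else 0) := by
    intro x y
    by_cases hx : (x : ℕ) < a
    · by_cases hy : (y : ℕ) < a
      · simp [hx, hy]
      · have : x ≠ y := by rintro rfl; exact hy hx
        simp [hx, hy, this]
    · simp [hx]
  have h2 : ∑ x : Fin m, (if (x : ℕ) < a then (1 : ℝ) else 0) = a := by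
    rw [Finset.sum_boole]
    have : (Finset.univ.filter fun x : Fin m => (x : ℕ) < a).card = a := by
      rw [Fin.card_filter_val_lt]
      omega
    rw [this]
  calc ∑ x : Fin m, ∑ y : Fin m, (if x ≠ y then (if (x : ℕ) < a ∧ ¬ (y : ℕ) < a then (1 : ℝ) else 0) else 0)
      = ∑ x : Fin m, ∑ y : Fin m, (if (x : ℕ) < a then (1 : ℝ) else 0) * (1 - if (y : ℕ) < a then (1 : ℝ) else 0) :=
        Finset.sum_congr rfl fun x _ => Finset.sum_congr rfl fun y _ => h1 x y
    _ = (∑ x : Fin m, (if (x : ℕ) < a then (1 : ℝ) else 0)) *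
          ∑ y : Fin m, (1 - if (y : ℕ) < a then (1 : ℝ) else 0) := by
        rw [Finset.sum_mul_sum]
    _ = a * (m - a) := by
        rw [h2, Finset.sum_sub_distrib, h2]; simp

/-- the cardinality of the symmetric group as a real number -/
noncomputable def NN (m : ℕ) : ℝ := (Fintype.card (Equiv.Perm (Fin m)) : ℝ)

lemma NN_pos (m : ℕ) : 0 < NN m := by
  unfold NN; exact_mod_cast Fintype.card_pos

lemma sum_indep {B : ℕ} (F G : Equiv.Perm (Fin m) → ℝ) {b b' : Fin B} (hb : b ≠ b') :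
    ∑ ω : Fin B → Equiv.Perm (Fin m), F (ω b) * G (ω b') =
      NN m ^ B * ((∑ p, F p) / NN m) * ((∑ p, G p) / NN m) := by
  have hN := NN_pos m
  have h1 : ∀ ω : Fin B → Equiv.Perm (Fin m), F (ω b) * G (ω b') =
      ∏ x, ((if x = b then F (ω x) else 1) * (if x = b' then G (ω x) else 1)) := by
    intro ω
    rw [Finset.prod_mul_distrib, Finset.prod_ite_eq', Finset.prod_ite_eq']
    simp
  have h2 := (Finset.prod_univ_sum (fun _ : Fin B => (Finset.univ : Finset (Equiv.Perm (Fin m))))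
    (fun x p => ((if x = b then F p else 1) * (if x = b' then G p else 1)))).symm
  rw [Fintype.piFinset_univ] at h2
  rw [Finset.sum_congr rfl fun ω _ => h1 ω, h2]
  have h3 : ∀ x : Fin B, ∑ p : Equiv.Perm (Fin m), ((if x = b then F p else 1) * (if x = b' then G p else 1)) =
      NN m * ((if x = b then (∑ p, F p) / NN m else 1) * (if x = b' then (∑ p, G p) / NN m else 1)) := by
    intro x
    by_cases hx : x = b
    · have hx' : x ≠ b' := by rw [hx]; exact hb
      simp only [hx, if_true, if_neg hb, mul_one]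
      field_simp
    · by_cases hx' : x = b'
      · simp only [hx', if_true, if_neg hb.symm, one_mul]
        field_simp
      · simp only [if_neg hx, if_neg hx', mul_one]
        simp [NN]
  rw [Finset.prod_congr rfl fun x _ => h3 x, Finset.prod_mul_distrib, Finset.prod_mul_distrib,
    Finset.prod_ite_eq', Finset.prod_ite_eq']
  simp [mul_assoc]

lemma sum_single {B : ℕ} (F : Equiv.Perm (Fin m) → ℝ) (b : Fin B) :
    ∑ ω : Fin B → Equiv.Perm (Fin m), F (ω b) = NN m ^ B * ((∑ p, F p) / NN m) := by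
  have hN := NN_pos m
  have h1 : ∀ ω : Fin B → Equiv.Perm (Fin m), F (ω b) =
      ∏ x, (if x = b then F (ω x) else 1) := by
    intro ω
    rw [Finset.prod_ite_eq']
    simp
  have h2 := (Finset.prod_univ_sum (fun _ : Fin B => (Finset.univ : Finset (Equiv.Perm (Fin m))))
    (fun x p => (if x = b then F p else 1))).symm
  rw [Fintype.piFinset_univ] at h2
  rw [Finset.sum_congr rfl fun ω _ => h1 ω, h2]
  have h3 : ∀ x : Fin B, ∑ p : Equiv.Perm (Fin m), (if x = b then F p else 1) =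
      NN m * (if x = b then (∑ p, F p) / NN m else 1) := by
    intro x
    by_cases hx : x = b
    · simp only [hx, if_true]
      field_simp
    · simp only [if_neg hx]
      simp [NN]
  rw [Finset.prod_congr rfl fun x _ => h3 x, Finset.prod_mul_distrib,
    Finset.prod_ite_eq']
  simp

/-- Number of `ω` for which the position `x` is selected and the position `x'` is not. -/
noncomputable def cnt {B : ℕ} (m : ℕ) (a : Fin B → ℕ) (x x' : Fin B × Fin m) : ℝ :=
  ∑ ω : Fin B → Equiv.Perm (Fin m),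
    (if ((ω x.1) x.2 : ℕ) < a x.1 ∧ ¬ ((ω x'.1) x'.2 : ℕ) < a x'.1 then (1 : ℝ) else 0)

lemma cnt_ne {B : ℕ} {a : Fin B → ℕ} (ha : ∀ b, a b ≤ m) (hm : 0 < m) {x x' : Fin B × Fin m}
    (hx : x.1 ≠ x'.1) : cnt m a x x' = NN m ^ B * ((a x.1 / m) * (1 - a x'.1 / m)) := by
  have h := sum_indep (fun p : Equiv.Perm (Fin m) => if (p x.2 : ℕ) < a x.1 then (1 : ℝ) else 0)
    (fun p : Equiv.Perm (Fin m) => if ¬ (p x'.2 : ℕ) < a x'.1 then (1 : ℝ) else 0) hx
  have h2 : cnt m a x x' = ∑ ω : Fin B → Equiv.Perm (Fin m),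
      (if ((ω x.1) x.2 : ℕ) < a x.1 then (1 : ℝ) else 0) *
        (if ¬ ((ω x'.1) x'.2 : ℕ) < a x'.1 then (1 : ℝ) else 0) := by
    unfold cnt
    refine Finset.sum_congr rfl fun ω _ => ?_
    by_cases h1 : ((ω x.1) x.2 : ℕ) < a x.1 <;> by_cases h2 : ((ω x'.1) x'.2 : ℕ) < a x'.1 <;>
      simp [h1, h2]
  rw [h2, h, prob_one (ha _) hm, prob_one' (ha _) hm]
  have hN := NN_pos m
  change NN m ^ B * (NN m * (a x.1 / m) / NN m) * (NN m * (1 - a x'.1 / m) / NN m) = _
  field_simp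

lemma cnt_eq {B : ℕ} {a : Fin B → ℕ} (ha : ∀ b, a b ≤ m) {x x' : Fin B × Fin m}
    (hx : x.1 = x'.1) (hx' : x.2 ≠ x'.2) :
    ((m : ℝ) * (m - 1)) * cnt m a x x' = NN m ^ B * (a x.1 * (m - a x.1)) := by
  have h := sum_single (B := B) (fun p : Equiv.Perm (Fin m) =>
    if (p x.2 : ℕ) < a x.1 ∧ ¬ (p x'.2 : ℕ) < a x.1 then (1 : ℝ) else 0) x.1
  have h2 : cnt m a x x' = ∑ ω : Fin B → Equiv.Perm (Fin m),
      (if ((ω x.1) x.2 : ℕ) < a x.1 ∧ ¬ ((ω x.1) x'.2 : ℕ) < a x.1 then (1 : ℝ) else 0) := by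
    unfold cnt
    rw [← hx]
  have h3 := prob_two (ha x.1) hx'
  rw [h2, h]
  have hN := NN_pos m
  change _ = NN m * _ at h3
  calc ((m : ℝ) * (m - 1)) * (NN m ^ B * ((∑ p : Equiv.Perm (Fin m),
        if (p x.2 : ℕ) < a x.1 ∧ ¬ (p x'.2 : ℕ) < a x.1 then (1 : ℝ) else 0) / NN m))
      = NN m ^ B * ((((m : ℝ) * (m - 1)) * (∑ p : Equiv.Perm (Fin m),
        if (p x.2 : ℕ) < a x.1 ∧ ¬ (p x'.2 : ℕ) < a x.1 then (1 : ℝ) else 0)) / NN m) := by ring
    _ = _ := by rw [h3]; field_simp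

end perm

section levels

variable {V : Type} [Fintype V]

omit [Fintype V] in
/-- The level function of an acyclic digraph. -/
lemma exists_level (D : WDigraph V) (hD : D.Acyclic) {ν : ℕ} (hν : D.LongestPathOrder ν) :
    ∃ lam : V → ℕ, (∀ v, lam v < ν) ∧ ∀ u v, D.Adj u v → lam u < lam v := by
  classical
  set P : V → Set ℕ := fun v => {k | ∃ l : List V, D.IsPath (v :: l) ∧ (v :: l).length = k} with hP
  have hne : ∀ v, (P v).Nonempty := fun v => ⟨1, [], ⟨by simp, by simp⟩, rfl⟩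
  have hbdd : ∀ v, BddAbove (P v) := by
    intro v
    refine ⟨ν, ?_⟩
    rintro k ⟨l, hl, rfl⟩
    exact hν.2 _ hl
  have hmem : ∀ v, sSup (P v) ∈ P v := fun v => Nat.sSup_mem (hne v) (hbdd v)
  have hle : ∀ v, sSup (P v) ≤ ν := by
    intro v
    obtain ⟨l, hl, hlen⟩ := hmem v
    rw [← hlen]
    exact hν.2 _ hl
  have hge : ∀ v, 1 ≤ sSup (P v) := by
    intro v
    exact le_csSup (hbdd v) ⟨[], ⟨by simp, by simp⟩, rfl⟩
  refine ⟨fun v => ν - sSup (P v), fun v => ?_, fun u v huv => ?_⟩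
  · have h1 := hle v
    have h2 := hge v
    change ν - sSup (P v) < ν
    omega
  · obtain ⟨l, hl, hlen⟩ := hmem v
    have hchain : List.IsChain D.Adj (u :: v :: l) := by
      rw [List.isChain_cons_cons]
      exact ⟨huv, hl.2⟩
    have hnd : (u :: v :: l).Nodup := by
      rw [List.nodup_cons]
      refine ⟨?_, hl.1⟩
      intro hmem'
      have h1 : List.IsChain (Relation.TransGen D.Adj) (u :: v :: l) :=
        hchain.imp fun _ _ h => Relation.TransGen.single h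
      have h2 := List.isChain_iff_pairwise.1 h1
      rw [List.pairwise_cons] at h2
      exact hD u (h2.1 u hmem')
    have h1 : sSup (P v) + 1 ≤ sSup (P u) := by
      apply le_csSup (hbdd u)
      refine ⟨v :: l, ⟨hnd, hchain⟩, ?_⟩
      rw [← hlen]; simp
    have h2 := hle u
    change ν - sSup (P u) < ν - sSup (P v)
    omega

lemma bdd_dicut (D : WDigraph V) : BddAbove (Set.range fun X : Finset V => D.dicut X) :=
  (Set.finite_range _).bddAbove

lemma dicut_le_mac (D : WDigraph V) (X : Finset V) : D.dicut X ≤ D.mac :=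
  le_ciSup (bdd_dicut D) X

/-- The numerical inequality behind the random cut. -/
lemma cnt_lower {t : ℕ} (ht : 1 ≤ t) {x x' : Fin (2 * t + 1) × Fin (8 * t ^ 2)}
    (hlt : (x.1 : ℕ) * (8 * t ^ 2) + x.2 < (x'.1 : ℕ) * (8 * t ^ 2) + x'.2) :
    NN (8 * t ^ 2) ^ (2 * t + 1) * (1 / 4 + 1 / (64 * (t : ℝ) ^ 2)) ≤
      cnt (8 * t ^ 2) (fun b : Fin (2 * t + 1) => 4 * t ^ 2 + t - (b : ℕ)) x x' := by
  have hN := NN_pos (8 * t ^ 2)
  have htr : (1 : ℝ) ≤ t := by exact_mod_cast ht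
  have htt : t ≤ t ^ 2 := Nat.le_self_pow two_ne_zero t
  have hle : ∀ b : Fin (2 * t + 1), (b : ℕ) ≤ 4 * t ^ 2 + t := fun b => by
    have := b.2; omega
  have ha : ∀ b : Fin (2 * t + 1), 4 * t ^ 2 + t - (b : ℕ) ≤ 8 * t ^ 2 := fun b => by
    have := b.2; omega
  have hm : 0 < 8 * t ^ 2 := by positivity
  have hcast : ∀ b : Fin (2 * t + 1), ((4 * t ^ 2 + t - (b : ℕ) : ℕ) : ℝ) = 4 * (t : ℝ) ^ 2 + t - (b : ℕ) := by
    intro b
    rw [Nat.cast_sub (hle b)]; push_cast; ring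
  have hble : ∀ b : Fin (2 * t + 1), ((b : ℕ) : ℝ) ≤ 2 * t := fun b => by
    have := b.2
    have h : (b : ℕ) ≤ 2 * t := by omega
    exact_mod_cast h
  have hb0 : ∀ b : Fin (2 * t + 1), (0 : ℝ) ≤ ((b : ℕ) : ℝ) := fun b => Nat.cast_nonneg _
  by_cases hx : x.1 = x'.1
  · have hx' : x.2 ≠ x'.2 := by
      intro h
      rw [hx, h] at hlt
      exact lt_irrefl _ hlt
    have h := cnt_eq (m := 8 * t ^ 2) ha hx hx'
    push_cast at h
    rw [hcast] at h
    have hpos : (0 : ℝ) < 8 * (t : ℝ) ^ 2 * (8 * (t : ℝ) ^ 2 - 1) := by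
      have : (0 : ℝ) < 8 * (t : ℝ) ^ 2 - 1 := by nlinarith
      positivity
    have hb := hble x.1
    have hb' := hb0 x.1
    set β : ℝ := ((x.1 : ℕ) : ℝ) with hβ
    have key : 8 * (t : ℝ) ^ 2 * (8 * (t : ℝ) ^ 2 - 1) * (1 / 4 + 1 / (64 * (t : ℝ) ^ 2)) ≤
        (4 * (t : ℝ) ^ 2 + t - β) * (8 * (t : ℝ) ^ 2 - (4 * (t : ℝ) ^ 2 + t - β)) := by
      have e : 8 * (t : ℝ) ^ 2 * (8 * (t : ℝ) ^ 2 - 1) * (1 / 4 + 1 / (64 * (t : ℝ) ^ 2)) =
          16 * (t : ℝ) ^ 4 - (t : ℝ) ^ 2 - 1 / 8 := by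
        field_simp; ring
      rw [e]
      nlinarith [mul_nonneg hb' (sub_nonneg.2 hb)]
    have h2 : NN (8 * t ^ 2) ^ (2 * t + 1) * (1 / 4 + 1 / (64 * (t : ℝ) ^ 2)) *
        (8 * (t : ℝ) ^ 2 * (8 * (t : ℝ) ^ 2 - 1)) ≤
        cnt (8 * t ^ 2) (fun b : Fin (2 * t + 1) => 4 * t ^ 2 + t - (b : ℕ)) x x' *
        (8 * (t : ℝ) ^ 2 * (8 * (t : ℝ) ^ 2 - 1)) := by
      have h3 : NN (8 * t ^ 2) ^ (2 * t + 1) * (8 * (t : ℝ) ^ 2 * (8 * (t : ℝ) ^ 2 - 1) * (1 / 4 + 1 / (64 * (t : ℝ) ^ 2))) ≤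
        NN (8 * t ^ 2) ^ (2 * t + 1) * ((4 * (t : ℝ) ^ 2 + t - β) * (8 * (t : ℝ) ^ 2 - (4 * (t : ℝ) ^ 2 + t - β))) :=
        mul_le_mul_of_nonneg_left key (by positivity)
      linarith
    exact le_of_mul_le_mul_right h2 hpos
  · have hlt' : (x.1 : ℕ) < x'.1 := by
      by_contra hcon
      have h1 : (x'.1 : ℕ) < x.1 := by
        rcases lt_or_eq_of_le (not_lt.1 hcon) with h | h
        · exact h
        · exact absurd (Fin.ext h.symm) hx
      have h2 : (x'.1 : ℕ) + 1 ≤ x.1 := h1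
      have h3 : ((x'.1 : ℕ) + 1) * (8 * t ^ 2) ≤ x.1 * (8 * t ^ 2) := Nat.mul_le_mul_right _ h2
      have h4 := x'.2.2
      rw [add_mul, one_mul] at h3
      omega
    have h := cnt_ne (m := 8 * t ^ 2) ha hm hx
    rw [h]
    refine mul_le_mul_of_nonneg_left ?_ (by positivity)
    rw [hcast, hcast]
    push_cast
    have hb1 := hble x.1
    have hb1' := hb0 x.1
    have hb2 := hble x'.1
    have hb2' := hb0 x'.1
    have hb3 : ((x.1 : ℕ) : ℝ) + 1 ≤ ((x'.1 : ℕ) : ℝ) := by exact_mod_cast hlt'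
    set β : ℝ := ((x.1 : ℕ) : ℝ) with hβ
    set γ : ℝ := ((x'.1 : ℕ) : ℝ) with hγ
    have e1 : (4 * (t : ℝ) ^ 2 + t - β) / (8 * (t : ℝ) ^ 2) * (1 - (4 * (t : ℝ) ^ 2 + t - γ) / (8 * (t : ℝ) ^ 2)) =
        ((4 * (t : ℝ) ^ 2 + t - β) * (4 * (t : ℝ) ^ 2 - t + γ)) / (64 * (t : ℝ) ^ 4) := by
      field_simp; ring
    have e2 : 1 / 4 + 1 / (64 * (t : ℝ) ^ 2) = (16 * (t : ℝ) ^ 4 + (t : ℝ) ^ 2) / (64 * (t : ℝ) ^ 4) := by
      field_simp; ring
    rw [e1, e2]
    apply div_le_div_of_nonneg_right _ (by positivity)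
    have h5 : ((t : ℝ) - β) * ((t : ℝ) - γ) ≤ (t : ℝ) ^ 2 := by
      have h6 : |((t : ℝ) - β) * ((t : ℝ) - γ)| ≤ (t : ℝ) * t := by
        rw [abs_mul]
        apply mul_le_mul _ _ (abs_nonneg _) (by linarith)
        · rw [abs_le]; constructor <;> linarith
        · rw [abs_le]; constructor <;> linarith
      have := (abs_le.1 h6).2
      nlinarith
    nlinarith [mul_nonneg (sq_nonneg (t : ℝ)) (by linarith : (0 : ℝ) ≤ γ - β - 1)]

/-- Lower bound for the maximum dicut of a digraph with a level function. -/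
lemma mac_lower (D : WDigraph V) {t : ℕ} (ht : 1 ≤ t) (lam : V → ℕ)
    (h1 : ∀ v, lam v < (2 * t + 1) * (8 * t ^ 2)) (h2 : ∀ u v, D.Adj u v → lam u < lam v) :
    (1 / 4 + 1 / (64 * (t : ℝ) ^ 2)) * D.total ≤ D.mac := by
  classical
  have hm : 0 < 8 * t ^ 2 := by positivity
  set m : ℕ := 8 * t ^ 2 with hmdef
  set a : Fin (2 * t + 1) → ℕ := fun b => 4 * t ^ 2 + t - (b : ℕ) with ha
  let pos : V → Fin (2 * t + 1) × Fin m := fun v =>
    (⟨lam v / m, by rw [Nat.div_lt_iff_lt_mul hm]; exact h1 v⟩, ⟨lam v % m, Nat.mod_lt _ hm⟩)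
  have hpos : ∀ v, ((pos v).1 : ℕ) * m + (pos v).2 = lam v := by
    intro v
    change lam v / m * m + lam v % m = lam v
    rw [mul_comm]; exact Nat.div_add_mod _ _
  let S : (Fin (2 * t + 1) → Equiv.Perm (Fin m)) → Finset V := fun ω =>
    Finset.univ.filter fun v => (((ω (pos v).1) (pos v).2 : Fin m) : ℕ) < a (pos v).1
  set T : ℝ := NN m ^ (2 * t + 1) with hT
  have hTpos : 0 < T := pow_pos (NN_pos m) _
  have hcard : (Fintype.card (Fin (2 * t + 1) → Equiv.Perm (Fin m)) : ℝ) = T := by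
    rw [Fintype.card_fun]; simp [hT, NN]
  have hsum : T * ((1 / 4 + 1 / (64 * (t : ℝ) ^ 2)) * D.total) ≤ ∑ ω, D.dicut (S ω) := by
    have e : ∑ ω, D.dicut (S ω) = ∑ u, ∑ v, if D.Adj u v then D.w u v * cnt m a (pos u) (pos v) else 0 := by
      unfold WDigraph.dicut
      rw [Finset.sum_comm]
      refine Finset.sum_congr rfl fun u _ => ?_
      rw [Finset.sum_comm]
      refine Finset.sum_congr rfl fun v _ => ?_
      by_cases huv : D.Adj u v
      · rw [if_pos huv, cnt, Finset.mul_sum]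
        refine Finset.sum_congr rfl fun ω _ => ?_
        simp only [S, Finset.mem_filter, Finset.mem_univ, true_and, huv, and_true]
        split_ifs <;> simp_all
      · simp [huv]
    rw [e]
    unfold WDigraph.total
    rw [Finset.mul_sum, Finset.mul_sum]
    refine Finset.sum_le_sum fun u _ => ?_
    rw [Finset.mul_sum, Finset.mul_sum]
    refine Finset.sum_le_sum fun v _ => ?_
    by_cases huv : D.Adj u v
    · rw [if_pos huv, if_pos huv]
      have h3 := cnt_lower ht (x := pos u) (x' := pos v) (by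
        have h5 := h2 u v huv
        rw [← hpos u, ← hpos v] at h5
        exact h5)
      have h4 := D.w_pos u v huv
      calc T * ((1 / 4 + 1 / (64 * (t : ℝ) ^ 2)) * D.w u v)
          = D.w u v * (T * (1 / 4 + 1 / (64 * (t : ℝ) ^ 2))) := by ring
        _ ≤ D.w u v * cnt m a (pos u) (pos v) := mul_le_mul_of_nonneg_left h3 h4.le
    · simp [huv]
  have hle : ∑ ω, D.dicut (S ω) ≤ T * D.mac := by
    calc ∑ ω, D.dicut (S ω) ≤ ∑ _ω : Fin (2 * t + 1) → Equiv.Perm (Fin m), D.mac :=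
          Finset.sum_le_sum fun ω _ => dicut_le_mac D _
      _ = T * D.mac := by
          rw [Finset.sum_const, nsmul_eq_mul, Finset.card_univ, hcard]
  exact le_of_mul_le_mul_left (hsum.trans hle) hTpos

end levels

/-! ### Duality -/

section duality

lemma exists_weights {ι Ω : Type} [Fintype ι] [Fintype Ω] [DecidableEq ι] (A : Ω → ι → ℝ)
    (hA : ∀ ω i, |A ω i| ≤ 1) (c : ℝ)
    (h : ∀ p : Ω → ℝ, (∀ ω, 0 ≤ p ω) → ∑ ω, p ω = 1 → ∃ i, ∑ ω, p ω * A ω i < c) :
    ∃ w : ι → ℝ, (∀ i, 0 < w i) ∧ ∀ ω, ∑ i, w i * A ω i < c * ∑ i, w i := by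
  classical
  let L : (Ω → ℝ) →ₗ[ℝ] (ι → ℝ) :=
    { toFun := fun p i => ∑ ω, p ω * A ω i
      map_add' := by
        intro p q; ext i
        simp [add_mul, Finset.sum_add_distrib]
      map_smul' := by
        intro r p; ext i
        simp [Finset.mul_sum, mul_assoc] }
  set K : Set (ι → ℝ) := L '' stdSimplex ℝ Ω with hK
  set T : Set (ι → ℝ) := {x | ∀ i, c ≤ x i} with hT
  have hKc : Convex ℝ K := (convex_stdSimplex ℝ Ω).linear_image L
  have hKcomp : IsCompact K := (isCompact_stdSimplex ℝ Ω).image (LinearMap.continuous_of_finiteDimensional L)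
  have hTc : Convex ℝ T := by
    intro x hx y hy a b ha hb hab i
    have h1 := hx i
    have h2 := hy i
    simp only [Pi.add_apply, Pi.smul_apply, smul_eq_mul]
    calc c = a * c + b * c := by rw [← add_mul, hab, one_mul]
      _ ≤ a * x i + b * y i := add_le_add (mul_le_mul_of_nonneg_left h1 ha) (mul_le_mul_of_nonneg_left h2 hb)
  have hTclosed : IsClosed T := by
    have : T = ⋂ i, {x : ι → ℝ | c ≤ x i} := by ext x; simp [hT]
    rw [this]
    exact isClosed_iInter fun i => isClosed_le continuous_const (continuous_apply i)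
  have hdisj : Disjoint K T := by
    rw [Set.disjoint_left]
    rintro _ ⟨p, hp, rfl⟩ hT'
    obtain ⟨i, hi⟩ := h p hp.1 hp.2
    have := hT' i
    change c ≤ ∑ ω, p ω * A ω i at this
    linarith
  obtain ⟨f, u, v, hfK, huv, hfT⟩ := geometric_hahn_banach_compact_closed hKc hKcomp hTc hTclosed hdisj
  set w0 : ι → ℝ := fun i => f (Pi.single i 1) with hw0
  have hf : ∀ x : ι → ℝ, f x = ∑ i, x i * w0 i := by
    intro x
    have := LinearMap.pi_apply_eq_sum_univ (f : (ι → ℝ) →ₗ[ℝ] ℝ) x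
    simp only [smul_eq_mul] at this
    have e : ∀ i : ι, (fun j => if i = j then (1 : ℝ) else 0) = Pi.single i 1 := by
      intro i; ext j; by_cases hij : i = j
      · subst hij; simp
      · simp [hij, Ne.symm hij]
    simp only [e] at this
    exact this
  have hw0nn : ∀ i, 0 ≤ w0 i := by
    intro i
    by_contra hneg
    push Not at hneg
    have h1 : ∀ s : ℝ, 0 ≤ s → v < c * ∑ j, w0 j + s * w0 i := by
      intro s hs
      have h2 := hfT (fun j => c + if j = i then s else 0) (by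
        intro j
        by_cases hj : j = i <;> simp [hj, hs])
      rw [hf] at h2
      have e : ∑ j, (c + if j = i then s else 0) * w0 j = c * ∑ j, w0 j + s * w0 i := by
        simp only [add_mul, Finset.sum_add_distrib, ite_mul, zero_mul, Finset.sum_ite_eq',
          Finset.mem_univ, if_true, Finset.mul_sum]
      rwa [e] at h2
    have h3 := h1 (|c * ∑ j, w0 j - v| / (-w0 i)) (by
      apply div_nonneg (abs_nonneg _); linarith)
    have h4 : |c * ∑ j, w0 j - v| / (-w0 i) * w0 i = -|c * ∑ j, w0 j - v| := by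
      have : w0 i ≠ 0 := hneg.ne
      field_simp
    rw [h4] at h3
    have h5 := le_abs_self (c * ∑ j, w0 j - v)
    linarith
  have hv : v < c * ∑ j, w0 j := by
    have h2 := hfT (fun _ => c) (fun _ => le_rfl)
    rw [hf] at h2
    rwa [← Finset.mul_sum] at h2
  have hu : ∀ ω, ∑ i, w0 i * A ω i < u := by
    intro ω
    have h2 := hfK (L (Pi.single ω 1)) ⟨_, single_mem_stdSimplex ℝ ω, rfl⟩
    rw [hf] at h2
    have e : ∀ i, L (Pi.single ω 1) i = A ω i := by
      intro i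
      change ∑ ω', (Pi.single ω (1 : ℝ) : Ω → ℝ) ω' * A ω' i = A ω i
      rw [Finset.sum_eq_single ω]
      · simp
      · intro b _ hb; simp [hb]
      · simp
    simp only [e] at h2
    have e2 : ∑ i, w0 i * A ω i = ∑ i, A ω i * w0 i := Finset.sum_congr rfl fun i _ => mul_comm _ _
    rwa [e2]
  set k : ℝ := (Fintype.card ι : ℝ) with hk
  have hk0 : 0 ≤ k := Nat.cast_nonneg _
  set η : ℝ := (v - u) / (k * (1 + |c|) + 1) with hη
  have hden : 0 < k * (1 + |c|) + 1 := by positivity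
  have hη0 : 0 < η := div_pos (by linarith) hden
  have hηle : η * (k * (1 + |c|)) ≤ v - u := by
    have : η * (k * (1 + |c|) + 1) = v - u := by rw [hη]; field_simp
    nlinarith
  refine ⟨fun i => w0 i + η, fun i => by have := hw0nn i; linarith, fun ω => ?_⟩
  have e1 : ∑ i, (w0 i + η) * A ω i = ∑ i, w0 i * A ω i + η * ∑ i, A ω i := by
    simp only [add_mul, Finset.sum_add_distrib, Finset.mul_sum]
  have e2 : ∑ i, (w0 i + η) = ∑ i, w0 i + η * k := by
    rw [Finset.sum_add_distrib]; simp [hk, mul_comm]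
  have e3 : ∑ i, A ω i ≤ k := by
    calc ∑ i, A ω i ≤ ∑ _i : ι, (1 : ℝ) := Finset.sum_le_sum fun i _ => (abs_le.1 (hA ω i)).2
      _ = k := by simp [hk]
  rw [e1, e2, mul_add]
  have h1 := hu ω
  have h2 : η * ∑ i, A ω i ≤ η * k := mul_le_mul_of_nonneg_left e3 hη0.le
  have h3 : -(η * k * |c|) ≤ c * (η * k) := by
    have h4 := neg_abs_le c
    have h5 : 0 ≤ η * k := by positivity
    nlinarith
  nlinarith

end duality

/-! ### The Riccati inequality -/

section riccati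

/-- bounded monotone potential -/
noncomputable def psi (x : ℝ) : ℝ := x / (1 + |x|)

lemma psi_le_one (x : ℝ) : psi x ≤ 1 := by
  unfold psi
  rw [div_le_one (by positivity)]
  have := le_abs_self x; linarith

lemma neg_one_le_psi (x : ℝ) : -1 ≤ psi x := by
  unfold psi
  rw [le_div_iff₀ (by positivity)]
  have := neg_abs_le x; linarith

lemma psi_sub {x y : ℝ} (h : y ≤ x) : (x - y) / ((1 + |x|) * (1 + |y|)) ≤ psi x - psi y := by
  have hx : 0 < 1 + |x| := by positivity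
  have hy : 0 < 1 + |y| := by positivity
  have e : psi x - psi y = (x * (1 + |y|) - y * (1 + |x|)) / ((1 + |x|) * (1 + |y|)) := by
    unfold psi; field_simp
  rw [e]
  apply div_le_div_of_nonneg_right _ (by positivity)
  rcases abs_cases x with ⟨h1, h2⟩ | ⟨h1, h2⟩ <;> rcases abs_cases y with ⟨h3, h4⟩ | ⟨h3, h4⟩ <;>
    rw [h1, h3] <;> nlinarith

lemma psi_mono {x y : ℝ} (h : y ≤ x) : psi y ≤ psi x := by
  have := psi_sub h
  have h2 : 0 ≤ (x - y) / ((1 + |x|) * (1 + |y|)) := div_nonneg (by linarith) (by positivity)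
  linarith

lemma psi_step {x y ε : ℝ} (hε : 0 < ε) (hε1 : ε ≤ 1 / 2) (hεx : ε * |x| ≤ 1 / 2)
    (h : y ≤ x - ε * (1 + x ^ 2)) : ε / 3 ≤ psi x - psi y := by
  set z : ℝ := x - ε * (1 + x ^ 2) with hz
  have h1 : psi y ≤ psi z := psi_mono h
  have hzx : z ≤ x := by rw [hz]; nlinarith [sq_nonneg x]
  have h2 := psi_sub hzx
  have h3 : x - z = ε * (1 + x ^ 2) := by rw [hz]; ring
  have h4 : |z| ≤ |x| + 1 / 2 + |x| / 2 := by
    have h5 : |z| ≤ |x| + |ε * (1 + x ^ 2)| := by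
      rw [hz]; exact abs_sub _ _
    have h6 : |ε * (1 + x ^ 2)| = ε * (1 + x ^ 2) := abs_of_nonneg (by positivity)
    have h7 : x ^ 2 = |x| * |x| := by rw [← abs_mul, ← sq, abs_of_nonneg (sq_nonneg x)]
    rw [h6, h7] at h5
    have h8 : ε * (|x| * |x|) ≤ 1 / 2 * |x| := by
      have := mul_le_mul_of_nonneg_right hεx (abs_nonneg x)
      linarith
    nlinarith
  have h9 : (1 + |x|) * (1 + |z|) ≤ 3 * (1 + x ^ 2) := by
    have h7 : x ^ 2 = |x| * |x| := by rw [← abs_mul, ← sq, abs_of_nonneg (sq_nonneg x)]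
    rw [h7]
    have h10 := abs_nonneg x
    nlinarith [mul_le_mul_of_nonneg_left h4 (by linarith : (0:ℝ) ≤ 1 + |x|), sq_nonneg (|x| - 1)]
  rw [h3] at h2
  have h11 : ε / 3 ≤ ε * (1 + x ^ 2) / ((1 + |x|) * (1 + |z|)) := by
    rw [le_div_iff₀ (by positivity)]
    nlinarith
  linarith

/-- sign kernel -/
noncomputable def sg (s s' : ℕ) : ℝ := if s < s' then 1 else if s' < s then -1 else 0

lemma sg_antisymm (s s' : ℕ) : sg s' s = -sg s s' := by
  unfold sg
  rcases lt_trichotomy s s' with h | h | h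
  · simp [h, not_lt.2 h.le]
  · subst h; simp
  · simp [h, not_lt.2 h.le]

lemma sum_sg {m s : ℕ} (hs : s < m) : ∑ s' ∈ range m, sg s s' = (m : ℝ) - 1 - 2 * s := by
  induction m, hs using Nat.le_induction with
  | base =>
    rw [Finset.sum_range_succ]
    have h1 : ∑ x ∈ range s, sg s x = ∑ x ∈ range s, (-1 : ℝ) := by
      refine Finset.sum_congr rfl fun x hx => ?_
      have hx' := Finset.mem_range.1 hx
      unfold sg
      rw [if_neg (not_lt.2 hx'.le), if_pos hx']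
    rw [h1]
    simp [sg]
    ring
  | succ m hm ih =>
    rw [Finset.sum_range_succ, ih]
    have : sg s m = 1 := by
      unfold sg; rw [if_pos (by omega)]
    rw [this]; push_cast; ring

lemma sum_sg_mul (m : ℕ) (D : ℕ → ℝ) :
    ∑ s ∈ range m, ∑ s' ∈ range m, sg s s' * (D s - D s') / 2 =
      ∑ s ∈ range m, ((m : ℝ) - 1 - 2 * s) * D s := by
  have h1 : ∑ s ∈ range m, ∑ s' ∈ range m, sg s s' * D s =
      ∑ s ∈ range m, ((m : ℝ) - 1 - 2 * s) * D s := by
    refine Finset.sum_congr rfl fun s hs => ?_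
    rw [← Finset.sum_mul, sum_sg (Finset.mem_range.1 hs)]
  have h2 : ∑ s ∈ range m, ∑ s' ∈ range m, sg s s' * D s' =
      -∑ s ∈ range m, ((m : ℝ) - 1 - 2 * s) * D s := by
    rw [Finset.sum_comm, ← h1, ← Finset.sum_neg_distrib]
    refine Finset.sum_congr rfl fun s _ => ?_
    rw [← Finset.sum_neg_distrib]
    refine Finset.sum_congr rfl fun s' _ => ?_
    rw [sg_antisymm]; ring
  have h3 : ∑ s ∈ range m, ∑ s' ∈ range m, sg s s' * (D s - D s') / 2 =
      (∑ s ∈ range m, ∑ s' ∈ range m, sg s s' * D s - ∑ s ∈ range m, ∑ s' ∈ range m, sg s s' * D s') / 2 := by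
    rw [← Finset.sum_sub_distrib, Finset.sum_div]
    refine Finset.sum_congr rfl fun s _ => ?_
    rw [← Finset.sum_sub_distrib, Finset.sum_div]
    refine Finset.sum_congr rfl fun s' _ => ?_
    ring
  rw [h3, h1, h2]; ring

lemma window {Ω : Type} [Fintype Ω] (p : Ω → ℝ) (hp : ∀ ω, 0 ≤ p ω) (hp1 : ∑ ω, p ω = 1)
    (y : Ω → ℕ → ℝ) (hy : ∀ ω i, y ω i ^ 2 = 1 / 4) (δ : ℝ) (n : ℕ)
    (hcut : ∀ i j, i < j → j < n → 1 / 4 + δ ≤ ∑ ω, p ω * ((1 / 2 + y ω i) * (1 / 2 - y ω j)))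
    (d : ℕ → ℝ) (hd : ∀ i, d i = ∑ ω, p ω * y ω i) (m a : ℕ) (ham : a + m ≤ n) :
    δ * (m * (m - 1)) - m / 4 + (∑ s ∈ range m, d (a + s)) ^ 2 ≤
      ∑ s ∈ range m, ((m : ℝ) - 1 - 2 * s) * d (a + s) := by
  set R : ℕ → ℕ → ℝ := fun s s' => ∑ ω, p ω * (y ω (a + s) * y ω (a + s')) with hR
  have hRs : ∀ s s', R s s' = R s' s := by
    intro s s'
    refine Finset.sum_congr rfl fun ω _ => ?_
    ring
  have hRd : ∀ s, R s s = 1 / 4 := by
    intro s
    have : ∀ ω, p ω * (y ω (a + s) * y ω (a + s)) = p ω * (1 / 4) := by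
      intro ω; rw [← hy ω (a + s)]; ring
    simp only [hR, this, ← Finset.sum_mul, hp1, one_mul]
  have hRlt : ∀ s s', s < s' → s' < m → R s s' ≤ (d (a + s) - d (a + s')) / 2 - δ := by
    intro s s' hss hs'
    have h1 := hcut (a + s) (a + s') (by omega) (by omega)
    have h2 : ∑ ω, p ω * ((1 / 2 + y ω (a + s)) * (1 / 2 - y ω (a + s'))) =
        1 / 4 * ∑ ω, p ω + (∑ ω, p ω * y ω (a + s)) / 2 - (∑ ω, p ω * y ω (a + s')) / 2 - R s s' := by
      rw [hR, Finset.mul_sum, Finset.sum_div, Finset.sum_div, ← Finset.sum_add_distrib,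
        ← Finset.sum_sub_distrib, ← Finset.sum_sub_distrib]
      refine Finset.sum_congr rfl fun ω _ => ?_
      ring
    rw [h2, hp1, ← hd, ← hd] at h1
    linarith
  have hRle : ∀ s ∈ range m, ∀ s' ∈ range m, R s s' ≤
      sg s s' * (d (a + s) - d (a + s')) / 2 + (if s = s' then 1 / 4 + δ else 0) - δ := by
    intro s hs s' hs'
    rw [Finset.mem_range] at hs hs'
    rcases lt_trichotomy s s' with h | h | h
    · have := hRlt s s' h hs'
      unfold sg
      rw [if_pos h, if_neg h.ne]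
      linarith
    · subst h
      rw [hRd]; simp
    · have := hRlt s' s h hs
      rw [hRs] at this
      unfold sg
      rw [if_neg (not_lt.2 h.le), if_pos h, if_neg h.ne']
      linarith
  -- second moment
  set Y : Ω → ℝ := fun ω => ∑ s ∈ range m, y ω (a + s) with hY
  have hEY : ∑ ω, p ω * Y ω = ∑ s ∈ range m, d (a + s) := by
    simp only [hY, hd, Finset.mul_sum]
    rw [Finset.sum_comm]
  have hEY2 : ∑ ω, p ω * Y ω ^ 2 = ∑ s ∈ range m, ∑ s' ∈ range m, R s s' := by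
    have h1 : ∀ ω, p ω * Y ω ^ 2 = ∑ s ∈ range m, ∑ s' ∈ range m, p ω * (y ω (a + s) * y ω (a + s')) := by
      intro ω
      rw [hY, sq, Finset.sum_mul_sum, Finset.mul_sum]
      refine Finset.sum_congr rfl fun s _ => ?_
      rw [Finset.mul_sum]
    rw [Finset.sum_congr rfl fun ω _ => h1 ω, Finset.sum_comm]
    refine Finset.sum_congr rfl fun s _ => ?_
    rw [Finset.sum_comm]
  have hJ : (∑ s ∈ range m, d (a + s)) ^ 2 ≤ ∑ s ∈ range m, ∑ s' ∈ range m, R s s' := by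
    rw [← hEY, ← hEY2]
    obtain ⟨μ, hμ⟩ : ∃ μ, μ = ∑ ω, p ω * Y ω := ⟨_, rfl⟩
    rw [← hμ]
    have h1 : 0 ≤ ∑ ω, p ω * (Y ω - μ) ^ 2 :=
      Finset.sum_nonneg fun ω _ => mul_nonneg (hp ω) (sq_nonneg _)
    have h2 : ∑ ω, p ω * (Y ω - μ) ^ 2 = ∑ ω, p ω * Y ω ^ 2 - 2 * μ * ∑ ω, p ω * Y ω + μ ^ 2 * ∑ ω, p ω := by
      rw [Finset.mul_sum, Finset.mul_sum, ← Finset.sum_sub_distrib, ← Finset.sum_add_distrib]
      refine Finset.sum_congr rfl fun ω _ => ?_
      ring
    rw [h2, hp1, ← hμ] at h1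
    nlinarith
  have hsum : ∑ s ∈ range m, ∑ s' ∈ range m, R s s' ≤
      ∑ s ∈ range m, ((m : ℝ) - 1 - 2 * s) * d (a + s) + m * (1 / 4 + δ) - m * m * δ := by
    have h1 : ∑ s ∈ range m, ∑ s' ∈ range m, R s s' ≤ ∑ s ∈ range m, ∑ s' ∈ range m,
        (sg s s' * (d (a + s) - d (a + s')) / 2 + (if s = s' then 1 / 4 + δ else 0) - δ) :=
      Finset.sum_le_sum fun s hs => Finset.sum_le_sum fun s' hs' => hRle s hs s' hs'
    have h2 : ∑ s ∈ range m, ∑ s' ∈ range m,
        (sg s s' * (d (a + s) - d (a + s')) / 2 + (if s = s' then 1 / 4 + δ else 0) - δ) =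
        ∑ s ∈ range m, ((m : ℝ) - 1 - 2 * s) * d (a + s) + m * (1 / 4 + δ) - m * m * δ := by
      simp only [Finset.sum_sub_distrib, Finset.sum_add_distrib]
      rw [sum_sg_mul m (fun s => d (a + s))]
      have h3 : ∑ s ∈ range m, ∑ s' ∈ range m, (if s = s' then 1 / 4 + δ else 0) = m * (1 / 4 + δ) := by
        have : ∀ s ∈ range m, ∑ s' ∈ range m, (if s = s' then 1 / 4 + δ else 0) = 1 / 4 + δ := by
          intro s hs
          rw [Finset.sum_ite_eq, if_pos hs]
        rw [Finset.sum_congr rfl this]; simp; ring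
      rw [h3]
      simp only [Finset.sum_const, Finset.card_range, nsmul_eq_mul]
      ring
    rw [h2] at h1
    exact h1
  nlinarith

lemma riccati_bound {t : ℕ} (ht : 2 ≤ t) (n : ℕ) (d : ℕ → ℝ) (hd : ∀ i, |d i| ≤ 1 / 2)
    (hw : ∀ a, a + t ^ 2 ≤ n → ((t ^ 2 : ℕ) : ℝ) / 4 + (∑ s ∈ range (t ^ 2), d (a + s)) ^ 2 ≤
      ∑ s ∈ range (t ^ 2), (((t ^ 2 : ℕ) : ℝ) - 1 - 2 * s) * d (a + s)) :
    n < 5 * t ^ 3 := by
  set m : ℕ := t ^ 2 with hm
  have htr : (2 : ℝ) ≤ t := by exact_mod_cast ht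
  have hmr : (m : ℝ) = (t : ℝ) ^ 2 := by rw [hm]; push_cast; ring
  set F : ℕ → ℝ := fun a => ∑ s ∈ range m, d (a + s) with hF
  set w : ℕ → ℝ := fun s => ((s : ℝ) + 1) * (m - 1 - s) with hwdef
  set G : ℕ → ℝ := fun a => ∑ s ∈ range m, w s * d (a + s) with hG
  set H : ℕ → ℝ := fun a => ∑ b ∈ range m, G (a + b) with hH
  have hGdiff : ∀ a, G a - G (a + 1) = ∑ s ∈ range m, ((m : ℝ) - 1 - 2 * s) * d (a + s) := by
    intro a
    have h1 : G (a + 1) = ∑ s ∈ range m, ((s : ℝ) * (m - s)) * d (a + s) := by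
      have h2 := Finset.sum_range_succ (fun s : ℕ => ((s : ℝ) * (m - s)) * d (a + s)) m
      have h3 := Finset.sum_range_succ' (fun s : ℕ => ((s : ℝ) * (m - s)) * d (a + s)) m
      have h4 : ∑ s ∈ range m, ((s : ℝ) * (m - s)) * d (a + s) =
          ∑ k ∈ range m, (((k + 1 : ℕ) : ℝ) * (m - ((k + 1 : ℕ) : ℝ))) * d (a + (k + 1)) := by
        rw [h2] at h3
        simpa using h3
      rw [h4]
      refine Finset.sum_congr rfl fun s _ => ?_
      simp only [hwdef]
      have : a + 1 + s = a + (s + 1) := by ring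
      rw [this]; push_cast; ring
    rw [h1, hG, ← Finset.sum_sub_distrib]
    refine Finset.sum_congr rfl fun s _ => ?_
    simp only [hwdef]; ring
  have hHdiff : ∀ a, a + 2 * m ≤ n + 1 → H a - H (a + 1) ≥ m * (m / 4 : ℝ) + ∑ b ∈ range m, F (a + b) ^ 2 := by
    intro a ha
    have h1 : H a - H (a + 1) = ∑ b ∈ range m, (G (a + b) - G (a + b + 1)) := by
      rw [hH, Finset.sum_sub_distrib]
      congr 1
      refine Finset.sum_congr rfl fun b _ => ?_
      congr 1; ring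
    rw [h1]
    have h2 : ∑ b ∈ range m, ((m : ℝ) / 4 + F (a + b) ^ 2) ≤ ∑ b ∈ range m, (G (a + b) - G (a + b + 1)) := by
      refine Finset.sum_le_sum fun b hb => ?_
      rw [hGdiff]
      apply hw
      have := Finset.mem_range.1 hb
      omega
    rw [Finset.sum_add_distrib] at h2
    simp only [Finset.sum_const, Finset.card_range, nsmul_eq_mul] at h2
    exact h2
  have hHF : ∀ a, H a = ∑ s ∈ range m, w s * F (a + s) := by
    intro a
    simp only [hH, hG, hF, Finset.mul_sum]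
    rw [Finset.sum_comm]
    refine Finset.sum_congr rfl fun s _ => Finset.sum_congr rfl fun b _ => ?_
    congr 2; ring
  have hwle : ∀ s ∈ range m, 0 ≤ w s ∧ w s ≤ (m : ℝ) ^ 2 / 4 := by
    intro s hs
    have h1 : ((s : ℝ) + 1) ≤ m := by exact_mod_cast Finset.mem_range.1 hs
    have h2 : (0 : ℝ) ≤ s := Nat.cast_nonneg _
    constructor
    · simp only [hwdef]
      apply mul_nonneg <;> linarith
    · simp only [hwdef]
      nlinarith [sq_nonneg ((s : ℝ) + 1 - (m - 1 - s))]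
  have hCS : ∀ a, H a ^ 2 ≤ (m : ℝ) ^ 5 / 16 * ∑ s ∈ range m, F (a + s) ^ 2 := by
    intro a
    rw [hHF]
    have h1 := Finset.sum_mul_sq_le_sq_mul_sq (range m) w (fun s => F (a + s))
    have h2 : ∑ s ∈ range m, w s ^ 2 ≤ (m : ℝ) ^ 5 / 16 := by
      calc ∑ s ∈ range m, w s ^ 2 ≤ ∑ s ∈ range m, ((m : ℝ) ^ 2 / 4) ^ 2 :=
            Finset.sum_le_sum fun s hs => pow_le_pow_left₀ (hwle s hs).1 (hwle s hs).2 2
        _ = (m : ℝ) ^ 5 / 16 := by simp; ring
    have h3 : 0 ≤ ∑ s ∈ range m, F (a + s) ^ 2 := Finset.sum_nonneg fun s _ => sq_nonneg _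
    calc _ ≤ _ := h1
      _ ≤ _ := mul_le_mul_of_nonneg_right h2 h3
  have hHbound : ∀ a, |H a| ≤ (m : ℝ) ^ 4 / 8 := by
    intro a
    rw [hHF]
    have hFb : ∀ a, |F a| ≤ m / 2 := by
      intro a
      calc |F a| ≤ ∑ s ∈ range m, |d (a + s)| := Finset.abs_sum_le_sum_abs _ _
        _ ≤ ∑ s ∈ range m, (1 / 2 : ℝ) := Finset.sum_le_sum fun s _ => hd _
        _ = m / 2 := by simp; ring
    calc |∑ s ∈ range m, w s * F (a + s)| ≤ ∑ s ∈ range m, |w s * F (a + s)| := Finset.abs_sum_le_sum_abs _ _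
      _ ≤ ∑ s ∈ range m, ((m : ℝ) ^ 2 / 4 * (m / 2)) := by
          refine Finset.sum_le_sum fun s hs => ?_
          rw [abs_mul, abs_of_nonneg (hwle s hs).1]
          exact mul_le_mul (hwle s hs).2 (hFb _) (abs_nonneg _) (by positivity)
      _ = (m : ℝ) ^ 4 / 8 := by simp; ring
  -- normalised sequence
  set u : ℕ → ℝ := fun a => 8 * H a / (t : ℝ) ^ 7 with hu
  have ht0 : (0 : ℝ) < t := by linarith
  have hubound : ∀ a, |u a| ≤ t := by
    intro a
    have h1 := hHbound a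
    rw [hmr] at h1
    simp only [hu]
    rw [abs_div, abs_mul, abs_of_pos (by positivity : (0 : ℝ) < (t : ℝ) ^ 7),
      abs_of_pos (by norm_num : (0 : ℝ) < 8), div_le_iff₀ (by positivity)]
    nlinarith
  have hstep : ∀ a, a + 2 * m ≤ n + 1 → u (a + 1) ≤ u a - 2 / (t : ℝ) ^ 3 * (1 + u a ^ 2) := by
    intro a ha
    have h1 := hHdiff a ha
    have h2 := hCS a
    rw [hmr] at h1 h2
    set Φ := ∑ s ∈ range m, F (a + s) ^ 2 with hΦ
    have hHa : H a = u a * (t : ℝ) ^ 7 / 8 := by simp only [hu]; field_simp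
    have hHa1 : H (a + 1) = u (a + 1) * (t : ℝ) ^ 7 / 8 := by simp only [hu]; field_simp
    rw [hHa, hHa1] at h1
    rw [hHa] at h2
    have h3 : u a ^ 2 * (t : ℝ) ^ 4 / 4 ≤ Φ := by
      have h4 : (u a * (t : ℝ) ^ 7 / 8) ^ 2 = (t : ℝ) ^ 10 / 16 * (u a ^ 2 * (t : ℝ) ^ 4 / 4) := by ring
      rw [h4] at h2
      have h5 : ((t : ℝ) ^ 2) ^ 5 / 16 * Φ = (t : ℝ) ^ 10 / 16 * Φ := by ring
      rw [h5] at h2
      exact le_of_mul_le_mul_left h2 (by positivity)
    have h6 : (t : ℝ) ^ 7 / 8 * (u a - u (a + 1)) ≥ (t : ℝ) ^ 7 / 8 * (2 / (t : ℝ) ^ 3 * (1 + u a ^ 2)) := by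
      have e : (t : ℝ) ^ 7 / 8 * (2 / (t : ℝ) ^ 3 * (1 + u a ^ 2)) = (t : ℝ) ^ 4 / 4 * (1 + u a ^ 2) := by
        field_simp; ring
      rw [e]
      nlinarith
    have h7 := le_of_mul_le_mul_left h6 (by positivity)
    linarith
  -- telescoping
  have hps : ∀ a, a + 2 * m ≤ n + 1 → 2 / (t : ℝ) ^ 3 / 3 ≤ psi (u a) - psi (u (a + 1)) := by
    intro a ha
    have ht3 : (8 : ℝ) ≤ (t : ℝ) ^ 3 := by
      calc (8 : ℝ) = 2 ^ 3 := by norm_num
        _ ≤ (t : ℝ) ^ 3 := pow_le_pow_left₀ (by norm_num) htr 3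
    refine psi_step (by positivity) ?_ ?_ (hstep a ha)
    · rw [div_le_iff₀ (by positivity)]; linarith
    · calc 2 / (t : ℝ) ^ 3 * |u a| ≤ 2 / (t : ℝ) ^ 3 * t := mul_le_mul_of_nonneg_left (hubound a) (by positivity)
        _ = 2 / (t : ℝ) ^ 2 := by field_simp
        _ ≤ 1 / 2 := by
          rw [div_le_iff₀ (by positivity)]
          nlinarith
  have htel : ∀ A : ℕ, A + 2 * m ≤ n + 2 → (A : ℝ) * (2 / (t : ℝ) ^ 3 / 3) ≤ psi (u 0) - psi (u A) := by
    intro A
    induction A with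
    | zero => intro _; simp
    | succ A ih =>
      intro hA
      have h1 := ih (by omega)
      have h2 := hps A (by omega)
      push_cast
      nlinarith
  by_contra hcon
  push Not at hcon
  have hm2 : 2 * m ≤ n + 2 := by
    have : t ^ 2 ≤ t ^ 3 := Nat.pow_le_pow_right (by omega) (by norm_num)
    rw [hm]; omega
  have h1 := htel (n + 2 - 2 * m) (by omega)
  have h2 := psi_le_one (u 0)
  have h3 := neg_one_le_psi (u (n + 2 - 2 * m))
  have h4 : ((n + 2 - 2 * m : ℕ) : ℝ) * (2 / (t : ℝ) ^ 3 / 3) ≤ 2 := by linarith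
  have h5 : ((n + 2 - 2 * m : ℕ) : ℝ) ≤ 3 * (t : ℝ) ^ 3 := by
    have e : ((n + 2 - 2 * m : ℕ) : ℝ) * (2 / (t : ℝ) ^ 3 / 3) = ((n + 2 - 2 * m : ℕ) : ℝ) * 2 / (3 * (t : ℝ) ^ 3) := by
      field_simp
    rw [e, div_le_iff₀ (by positivity)] at h4
    linarith
  have h6 : n + 2 - 2 * m ≤ 3 * t ^ 3 := by exact_mod_cast h5
  have h7 : t ^ 2 ≤ t ^ 3 := Nat.pow_le_pow_right (by omega) (by norm_num)
  omega

end riccati

/-! ### Bounds for `c` -/

section bounds

/-- The transitive tournament on `n` vertices with prescribed weights. -/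
noncomputable def tt (n : ℕ) (w : {q : Fin n × Fin n // q.1 < q.2} → ℝ) (hw : ∀ q, 0 < w q) :
    WDigraph (Fin n) where
  Adj i j := i < j
  loopless i := lt_irrefl i
  w i j := if h : i < j then w ⟨(i, j), h⟩ else 0
  w_pos i j h := by rw [dif_pos h]; exact hw _

lemma tt_acyclic (n : ℕ) (w : {q : Fin n × Fin n // q.1 < q.2} → ℝ) (hw : ∀ q, 0 < w q) :
    (tt n w hw).Acyclic := by
  intro v hv
  have h : ∀ u v : Fin n, Relation.TransGen (tt n w hw).Adj u v → u < v := by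
    intro u v h
    induction h with
    | single h => exact h
    | tail _ h ih => exact lt_trans ih h
  exact lt_irrefl v (h v v hv)

lemma tt_longest (n : ℕ) (w : {q : Fin n × Fin n // q.1 < q.2} → ℝ) (hw : ∀ q, 0 < w q) :
    (tt n w hw).LongestPathOrder n := by
  refine ⟨⟨List.finRange n, ⟨List.nodup_finRange n, ?_⟩, List.length_finRange⟩, ?_⟩
  · apply List.Pairwise.isChain
    exact List.pairwise_lt_finRange n
  · intro l hl
    have := hl.1.length_le_card
    simpa using this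

lemma sum_pairs (n : ℕ) (f : Fin n → Fin n → ℝ) :
    ∑ u, ∑ v, (if u < v then f u v else 0) =
      ∑ q : {q : Fin n × Fin n // q.1 < q.2}, f q.1.1 q.1.2 := by
  rw [← Finset.sum_product']
  rw [← Finset.sum_filter]
  rw [Finset.univ_product_univ]
  exact (Finset.sum_subtype (Finset.univ.filter fun x : Fin n × Fin n => x.1 < x.2)
    (fun x => by simp) (fun x => f x.1 x.2))

lemma tt_total (n : ℕ) (w : {q : Fin n × Fin n // q.1 < q.2} → ℝ) (hw : ∀ q, 0 < w q) :
    (tt n w hw).total = ∑ q, w q := by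
  have h := sum_pairs n (fun u v => if h : u < v then w ⟨(u, v), h⟩ else 0)
  have e : (tt n w hw).total = ∑ u, ∑ v,
      if u < v then (fun u v => if h : u < v then w ⟨(u, v), h⟩ else 0) u v else 0 := by
    unfold WDigraph.total
    refine Finset.sum_congr rfl fun u _ => Finset.sum_congr rfl fun v _ => ?_
    by_cases huv : u < v
    · have : (tt n w hw).Adj u v := huv
      rw [if_pos this, if_pos huv]; rfl
    · have : ¬ (tt n w hw).Adj u v := huv
      rw [if_neg this, if_neg huv]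
  rw [e, h]
  refine Finset.sum_congr rfl fun q _ => ?_
  rw [dif_pos q.2]

open Classical in
lemma tt_dicut (n : ℕ) (w : {q : Fin n × Fin n // q.1 < q.2} → ℝ) (hw : ∀ q, 0 < w q)
    (X : Finset (Fin n)) :
    (tt n w hw).dicut X = ∑ q, w q * (if q.1.1 ∈ X ∧ q.1.2 ∉ X then (1 : ℝ) else 0) := by
  have h := sum_pairs n (fun u v => if u ∈ X ∧ v ∉ X then (if h : u < v then w ⟨(u, v), h⟩ else 0) else 0)
  have e : (tt n w hw).dicut X = ∑ u, ∑ v,
      if u < v then (fun u v => if u ∈ X ∧ v ∉ X then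
        (if h : u < v then w ⟨(u, v), h⟩ else 0) else 0) u v else 0 := by
    unfold WDigraph.dicut
    refine Finset.sum_congr rfl fun u _ => Finset.sum_congr rfl fun v _ => ?_
    by_cases huv : u < v
    · have h1 : (tt n w hw).Adj u v := huv
      by_cases h2 : u ∈ X ∧ v ∉ X
      · rw [if_pos ⟨h2.1, h2.2, h1⟩, if_pos huv]
        simp only [if_pos h2]; rfl
      · rw [if_pos huv]
        simp only [if_neg h2]
        rw [if_neg]
        rintro ⟨h3, h4, -⟩
        exact h2 ⟨h3, h4⟩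
    · have h1 : ¬ (tt n w hw).Adj u v := huv
      rw [if_neg huv, if_neg]
      rintro ⟨-, -, h4⟩
      exact h1 h4
  rw [e, h]
  refine Finset.sum_congr rfl fun q _ => ?_
  by_cases h2 : q.1.1 ∈ X ∧ q.1.2 ∉ X
  · rw [if_pos h2, if_pos h2, dif_pos q.2, mul_one]
  · rw [if_neg h2, if_neg h2, mul_zero]

lemma total_nonneg {V : Type} [Fintype V] (D : WDigraph V) : 0 ≤ D.total := by
  classical
  unfold WDigraph.total
  refine Finset.sum_nonneg fun u _ => Finset.sum_nonneg fun v _ => ?_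
  split_ifs with h
  · exact (D.w_pos u v h).le
  · exact le_rfl

lemma mac_nonneg {V : Type} [Fintype V] (D : WDigraph V) : 0 ≤ D.mac := by
  classical
  refine le_trans ?_ (dicut_le_mac D ∅)
  unfold WDigraph.dicut
  simp

lemma total_pos {V : Type} [Fintype V] (D : WDigraph V) {ν : ℕ} (hν : 2 ≤ ν)
    (hD : D.LongestPathOrder ν) : 0 < D.total := by
  classical
  obtain ⟨⟨l, hl, hlen⟩, -⟩ := hD
  obtain ⟨a, b, l', rfl⟩ : ∃ a b l', l = a :: b :: l' := by
    match l, hlen with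
    | [], h => simp at h; omega
    | [a], h => simp at h; omega
    | a :: b :: l', _ => exact ⟨a, b, l', rfl⟩
  have hab : D.Adj a b := (List.isChain_cons_cons.1 hl.2).1
  have hnn : ∀ u v, 0 ≤ (if D.Adj u v then D.w u v else 0) := by
    intro u v
    split_ifs with h
    · exact (D.w_pos u v h).le
    · exact le_rfl
  have h1 : (if D.Adj a b then D.w a b else 0) ≤ ∑ v, if D.Adj a v then D.w a v else 0 :=
    Finset.single_le_sum (f := fun v => if D.Adj a v then D.w a v else 0)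
      (fun v _ => hnn a v) (Finset.mem_univ b)
  have h2 : (∑ v, if D.Adj a v then D.w a v else 0) ≤ D.total :=
    Finset.single_le_sum (f := fun u => ∑ v, if D.Adj u v then D.w u v else 0)
      (fun u _ => Finset.sum_nonneg fun v _ => hnn u v) (Finset.mem_univ a)
  rw [if_pos hab] at h1
  have := D.w_pos a b hab
  linarith

/-- The set whose infimum is `c ν`. -/
def ratios (ν : ℕ) : Set ℝ := {r : ℝ | ∃ (n : ℕ) (D : WDigraph (Fin n)),
    D.Acyclic ∧ D.LongestPathOrder ν ∧ r = D.mac / D.total}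

lemma ratios_bdd (ν : ℕ) : BddBelow (ratios ν) := by
  refine ⟨0, ?_⟩
  rintro r ⟨n, D, -, -, rfl⟩
  exact div_nonneg (mac_nonneg D) (total_nonneg D)

lemma c_lower {t ν : ℕ} (ht : 1 ≤ t) (hν : 2 ≤ ν) (hνt : ν ≤ (2 * t + 1) * (8 * t ^ 2)) :
    1 / 4 + 1 / (64 * (t : ℝ) ^ 2) ≤ c ν := by
  apply le_csInf
  · exact ⟨_, ν, tt ν (fun _ => 1) (fun _ => one_pos), tt_acyclic _ _ _, tt_longest _ _ _, rfl⟩
  · rintro r ⟨n, D, hac, hlp, rfl⟩
    obtain ⟨lam, h1, h2⟩ := exists_level D hac hlp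
    have h3 := mac_lower D ht lam (fun v => lt_of_lt_of_le (h1 v) hνt) h2
    rw [le_div_iff₀ (total_pos D hν hlp)]
    exact h3

lemma c_upper {t n : ℕ} (ht : 2 ≤ t) (hn : 5 * t ^ 3 ≤ n) :
    c n ≤ 1 / 4 + 1 / (2 * ((t : ℝ) ^ 2 - 1)) := by
  classical
  have htr : (2 : ℝ) ≤ t := by exact_mod_cast ht
  have ht1 : (0 : ℝ) < (t : ℝ) ^ 2 - 1 := by nlinarith
  set cc : ℝ := 1 / 4 + 1 / (2 * ((t : ℝ) ^ 2 - 1)) with hcc
  obtain ⟨w, hw, hlt⟩ := exists_weights
    (fun (S : Finset (Fin n)) (q : {q : Fin n × Fin n // q.1 < q.2}) =>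
      if q.1.1 ∈ S ∧ q.1.2 ∉ S then (1 : ℝ) else 0) (by
        intro S q; split_ifs <;> simp) cc (by
    intro p hp hp1
    by_contra hcon
    push Not at hcon
    set y : Finset (Fin n) → ℕ → ℝ := fun S i => if ∃ h : i < n, (⟨i, h⟩ : Fin n) ∈ S then 1 / 2 else -(1 / 2) with hy
    have hy2 : ∀ S i, y S i ^ 2 = 1 / 4 := by
      intro S i
      simp only [hy]
      split_ifs <;> norm_num
    have hyabs : ∀ S i, |y S i| = 1 / 2 := by
      intro S i
      simp only [hy]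
      split_ifs
      · exact abs_of_pos (by norm_num)
      · rw [abs_neg]; exact abs_of_pos (by norm_num)
    set d : ℕ → ℝ := fun i => ∑ S, p S * y S i with hd
    have hdabs : ∀ i, |d i| ≤ 1 / 2 := by
      intro i
      calc |d i| ≤ ∑ S, |p S * y S i| := Finset.abs_sum_le_sum_abs _ _
        _ = ∑ S, p S * (1 / 2) := by
            refine Finset.sum_congr rfl fun S _ => ?_
            rw [abs_mul, hyabs, abs_of_nonneg (hp S)]
        _ = 1 / 2 := by rw [← Finset.sum_mul, hp1, one_mul]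
    have hcut : ∀ i j, i < j → j < n → 1 / 4 + 1 / (2 * ((t : ℝ) ^ 2 - 1)) ≤
        ∑ S, p S * ((1 / 2 + y S i) * (1 / 2 - y S j)) := by
      intro i j hij hj
      have h1 := hcon ⟨(⟨i, hij.trans hj⟩, ⟨j, hj⟩), hij⟩
      refine h1.trans (le_of_eq ?_)
      refine Finset.sum_congr rfl fun S _ => ?_
      congr 1
      have hi' : (∃ h : i < n, (⟨i, h⟩ : Fin n) ∈ S) ↔ (⟨i, hij.trans hj⟩ : Fin n) ∈ S :=
        ⟨fun ⟨_, h⟩ => h, fun h => ⟨_, h⟩⟩
      have hj' : (∃ h : j < n, (⟨j, h⟩ : Fin n) ∈ S) ↔ (⟨j, hj⟩ : Fin n) ∈ S :=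
        ⟨fun ⟨_, h⟩ => h, fun h => ⟨_, h⟩⟩
      simp only [hy, hi', hj']
      by_cases h2 : (⟨i, hij.trans hj⟩ : Fin n) ∈ S <;> by_cases h3 : (⟨j, hj⟩ : Fin n) ∈ S <;>
        norm_num [h2, h3]
    have hb := riccati_bound ht n d hdabs (by
      intro a ha
      have h1 := window p hp hp1 y hy2 _ n hcut d (fun i => rfl) (t ^ 2) a ha
      have h2 : 1 / (2 * ((t : ℝ) ^ 2 - 1)) * (((t ^ 2 : ℕ) : ℝ) * (((t ^ 2 : ℕ) : ℝ) - 1)) = ((t ^ 2 : ℕ) : ℝ) / 2 := by
        push_cast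
        field_simp
      rw [h2] at h1
      have h3 : ((t ^ 2 : ℕ) : ℝ) / 2 - ((t ^ 2 : ℕ) : ℝ) / 4 = ((t ^ 2 : ℕ) : ℝ) / 4 := by ring
      rw [h3] at h1
      exact h1)
    omega)
  have hn2 : 2 ≤ n := by
    have : 2 ^ 3 ≤ t ^ 3 := Nat.pow_le_pow_left ht 3
    omega
  have hmem : (tt n w hw).mac / (tt n w hw).total ∈ ratios n :=
    ⟨n, tt n w hw, tt_acyclic _ _ _, tt_longest _ _ _, rfl⟩
  refine (csInf_le (ratios_bdd n) hmem).trans ?_
  rw [div_le_iff₀ (total_pos _ hn2 (tt_longest _ _ _))]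
  unfold WDigraph.mac
  refine ciSup_le fun X => ?_
  rw [tt_total, tt_dicut]
  exact (hlt X).le

lemma c_upper_rpow : ∀ᶠ ν : ℕ in Filter.atTop, c ν - 1 / 4 ≤ 40 * (ν : ℝ) ^ (-(2 / 3) : ℝ) := by
  filter_upwards [Filter.eventually_ge_atTop 40] with ν hν
  have hνr : (40 : ℝ) ≤ ν := by exact_mod_cast hν
  set x : ℝ := ((ν : ℝ) / 5) ^ ((1 : ℝ) / 3) with hx
  have hx3 : x ^ 3 = (ν : ℝ) / 5 := by
    rw [hx, ← Real.rpow_natCast, ← Real.rpow_mul (by positivity)]
    norm_num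
  have hx0 : 0 ≤ x := by positivity
  have hx2 : 2 ≤ x := by
    by_contra hcon
    push Not at hcon
    have : x ^ 3 < 2 ^ 3 := pow_lt_pow_left₀ hcon hx0 (by norm_num)
    rw [hx3] at this
    linarith
  set t : ℕ := ⌊x⌋₊ with ht
  have ht2 : 2 ≤ t := Nat.le_floor (by exact_mod_cast hx2)
  have htx : (t : ℝ) ≤ x := Nat.floor_le hx0
  have hxt : x < t + 1 := Nat.lt_floor_add_one x
  have h5 : 5 * t ^ 3 ≤ ν := by
    have h1 : (t : ℝ) ^ 3 ≤ x ^ 3 := pow_le_pow_left₀ (Nat.cast_nonneg _) htx 3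
    rw [hx3] at h1
    have h2 : 5 * (t : ℝ) ^ 3 ≤ ν := by linarith
    exact_mod_cast h2
  have h6 := c_upper ht2 h5
  have htr : (2 : ℝ) ≤ t := by exact_mod_cast ht2
  have h7 : x ≤ 3 / 2 * t := by linarith
  have h8 : x ^ 2 ≤ 9 / 4 * (t : ℝ) ^ 2 := by nlinarith
  -- `1 / (2 (t^2 - 1)) ≤ 2 / (3 t^2) ≤ (3/2) / x ^ 2`
  have h9 : 1 / (2 * ((t : ℝ) ^ 2 - 1)) ≤ (3 / 2) / x ^ 2 := by
    rw [div_le_div_iff₀ (by nlinarith) (by positivity)]
    nlinarith
  have h10 : (ν : ℝ) ^ (-(2 / 3) : ℝ) * 5 ^ ((2 : ℝ) / 3) = 1 / x ^ 2 := by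
    have e1 : x ^ 2 = ((ν : ℝ) / 5) ^ ((2 : ℝ) / 3) := by
      rw [hx, ← Real.rpow_natCast, ← Real.rpow_mul (by positivity)]
      norm_num
    rw [e1, Real.div_rpow (by positivity) (by norm_num), Real.rpow_neg (by positivity)]
    have : (0 : ℝ) < (ν : ℝ) ^ ((2 : ℝ) / 3) := by positivity
    have h5' : (0 : ℝ) < (5 : ℝ) ^ ((2 : ℝ) / 3) := by positivity
    field_simp
  have h11 : (5 : ℝ) ^ ((2 : ℝ) / 3) ≤ 5 := by
    calc (5 : ℝ) ^ ((2 : ℝ) / 3) ≤ (5 : ℝ) ^ (1 : ℝ) := Real.rpow_le_rpow_of_exponent_le (by norm_num) (by norm_num)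
      _ = 5 := Real.rpow_one _
  have h12 : 0 ≤ (ν : ℝ) ^ (-(2 / 3) : ℝ) := by positivity
  have h13 : (3 / 2) / x ^ 2 = 3 / 2 * ((ν : ℝ) ^ (-(2 / 3) : ℝ) * 5 ^ ((2 : ℝ) / 3)) := by
    rw [h10]; ring
  rw [h13] at h9
  nlinarith [mul_le_mul_of_nonneg_left h11 h12]

lemma c_lower_rpow : ∀ᶠ ν : ℕ in Filter.atTop, 1 / 256 * (ν : ℝ) ^ (-(2 / 3) : ℝ) ≤ c ν - 1 / 4 := by
  filter_upwards [Filter.eventually_ge_atTop 2] with ν hν
  have hνr : (2 : ℝ) ≤ ν := by exact_mod_cast hν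
  set x : ℝ := (ν : ℝ) ^ ((1 : ℝ) / 3) with hx
  have hx3 : x ^ 3 = (ν : ℝ) := by
    rw [hx, ← Real.rpow_natCast, ← Real.rpow_mul (by positivity)]
    norm_num
  have hx0 : 0 < x := by positivity
  have hx1 : 1 ≤ x := by
    by_contra hcon
    push Not at hcon
    have : x ^ 3 < 1 ^ 3 := pow_lt_pow_left₀ hcon hx0.le (by norm_num)
    rw [hx3] at this
    linarith
  set t : ℕ := ⌈x⌉₊ with ht
  have hxt : x ≤ t := Nat.le_ceil x
  have htx : (t : ℝ) < x + 1 := Nat.ceil_lt_add_one hx0.le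
  have ht1 : 1 ≤ t := Nat.one_le_cast.1 (hx1.trans hxt)
  have hνt : ν ≤ (2 * t + 1) * (8 * t ^ 2) := by
    have h1 : x ^ 3 ≤ (t : ℝ) ^ 3 := pow_le_pow_left₀ hx0.le hxt 3
    rw [hx3] at h1
    have h2 : ν ≤ t ^ 3 := by exact_mod_cast h1
    refine h2.trans ?_
    ring_nf
    nlinarith [sq_nonneg t]
  have h6 := c_lower ht1 hν hνt
  have h7 : (t : ℝ) ≤ 2 * x := by linarith
  have h8 : (t : ℝ) ^ 2 ≤ 4 * x ^ 2 := by nlinarith [Nat.cast_nonneg (α := ℝ) t]
  have ht0 : (0 : ℝ) < t := by linarith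
  have h9 : 1 / (256 * x ^ 2) ≤ 1 / (64 * (t : ℝ) ^ 2) := by
    apply one_div_le_one_div_of_le (by positivity)
    linarith
  have h10 : (ν : ℝ) ^ (-(2 / 3) : ℝ) = 1 / x ^ 2 := by
    have e1 : x ^ 2 = (ν : ℝ) ^ ((2 : ℝ) / 3) := by
      rw [hx, ← Real.rpow_natCast, ← Real.rpow_mul (by positivity)]
      norm_num
    rw [e1, Real.rpow_neg (by positivity), one_div]
  rw [h10]
  have h11 : 1 / 256 * (1 / x ^ 2) = 1 / (256 * x ^ 2) := by field_simp
  rw [h11]
  linarith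

lemma isBigO_c : (fun ν : ℕ => c ν - 1 / 4) =O[Filter.atTop] (fun ν : ℕ => (ν : ℝ) ^ (-(2 / 3) : ℝ)) := by
  apply Asymptotics.IsBigO.of_bound 40
  filter_upwards [c_upper_rpow, c_lower_rpow] with ν h1 h2
  have h3 : 0 ≤ (ν : ℝ) ^ (-(2 / 3) : ℝ) := by positivity
  rw [Real.norm_of_nonneg (by linarith), Real.norm_of_nonneg h3]
  exact h1

lemma isBigO_c' : (fun ν : ℕ => (ν : ℝ) ^ (-(2 / 3) : ℝ)) =O[Filter.atTop] (fun ν : ℕ => c ν - 1 / 4) := by
  apply Asymptotics.IsBigO.of_bound 256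
  filter_upwards [c_lower_rpow] with ν h2
  have h3 : 0 ≤ (ν : ℝ) ^ (-(2 / 3) : ℝ) := by positivity
  rw [Real.norm_of_nonneg h3, Real.norm_of_nonneg (by linarith : 0 ≤ c ν - 1 / 4)]
  linarith

lemma rpow_isBigO_iff (α β : ℝ) :
    (fun ν : ℕ => (ν : ℝ) ^ α) =O[Filter.atTop] (fun ν : ℕ => (ν : ℝ) ^ β) ↔ α ≤ β := by
  constructor
  · intro h
    by_contra hcon
    push Not at hcon
    obtain ⟨C, hC⟩ := h.bound
    have h1 : Filter.Tendsto (fun ν : ℕ => (ν : ℝ) ^ (α - β)) Filter.atTop Filter.atTop :=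
      (tendsto_rpow_atTop (by linarith)).comp tendsto_natCast_atTop_atTop
    have h2 := h1.eventually (Filter.eventually_gt_atTop C)
    obtain ⟨ν, hν1, hν2, hν3⟩ := (hC.and (h2.and (Filter.eventually_ge_atTop 1))).exists
    have hνr : (1 : ℝ) ≤ ν := by exact_mod_cast hν3
    have h0 : (0 : ℝ) < ν := by linarith
    rw [Real.norm_of_nonneg (by positivity), Real.norm_of_nonneg (by positivity)] at hν1
    have h4 : (ν : ℝ) ^ α = (ν : ℝ) ^ (α - β) * (ν : ℝ) ^ β := by
      rw [← Real.rpow_add h0]; congr 1; ring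
    rw [h4] at hν1
    have h5 := le_of_mul_le_mul_right hν1 (by positivity)
    linarith
  · intro h
    apply Asymptotics.IsBigO.of_bound 1
    filter_upwards [Filter.eventually_ge_atTop 1] with ν hν
    have hνr : (1 : ℝ) ≤ ν := by exact_mod_cast hν
    rw [Real.norm_of_nonneg (by positivity), Real.norm_of_nonneg (by positivity), one_mul]
    exact Real.rpow_le_rpow_of_exponent_le hνr h

end bounds

/-- **Main result.** `α_L = α_U = -2/3`. -/
theorem result : alphaL = -(2 / 3) ∧ alphaU = -(2 / 3) := by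
  constructor
  · have : {α : ℝ | (fun ν : ℕ => (ν : ℝ) ^ α) =O[Filter.atTop] (fun ν : ℕ => c ν - 1 / 4)} =
        Set.Iic (-(2 / 3) : ℝ) := by
      ext α
      simp only [Set.mem_ofPred_eq, Set.mem_Iic]
      constructor
      · intro h
        exact (rpow_isBigO_iff _ _).1 (h.trans isBigO_c)
      · intro h
        exact ((rpow_isBigO_iff _ _).2 h).trans isBigO_c'
    rw [alphaL, this, csSup_Iic]
  · have : {α : ℝ | (fun ν : ℕ => c ν - 1 / 4) =O[Filter.atTop] (fun ν : ℕ => (ν : ℝ) ^ α)} =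
        Set.Ici (-(2 / 3) : ℝ) := by
      ext α
      simp only [Set.mem_ofPred_eq, Set.mem_Ici]
      constructor
      · intro h
        exact (rpow_isBigO_iff _ _).1 (isBigO_c'.trans h)
      · intro h
        exact isBigO_c.trans ((rpow_isBigO_iff _ _).2 h)
    rw [alphaU, this, csInf_Ici]

end Pool.Agent.Results.MP_0d4af9_co.DicutExponents
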